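import Pool.Agent.helper78.HFN.Spec

/-!
# Project HFN (MP_3221a1_ag), row ONE: one variable Bezout
-/

set_option autoImplicit false

open Polynomial Module

namespace Pool.Agent.HFN

noncomputable section

theorem ONE_dX_map (s : ℂ[X]) : dX (s.map (C : ℂ →+* ℂ[X])) = 0 := by
  unfold dX sw
  rw [Polynomial.Bivariate.swap_map_C, natDegree_C]

theorem ONE_dY_map (s : ℂ[X]) : dY (s.map (C : ℂ →+* ℂ[X])) = s.natDegree := by
  unfold dY
  exact natDegree_map_eq_of_injective C_injective s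

/-- division with coprime polynomials in one variable -/
theorem ONE_div (f a b : ℂ[X]) (n q : ℕ) (h : IsCoprime a b) (ha : a ≠ 0) (hf : f.natDegree ≤ n) (hb : b.natDegree ≤ q)
    (haq : a.natDegree ≤ q) (hq : 2 * q ≤ n + 1) :
    ∃ s t : ℂ[X], f = s * a + t * b ∧ (s ≠ 0 → s.natDegree + a.natDegree ≤ n) ∧ (t ≠ 0 → t.natDegree + q ≤ n) := by
  obtain ⟨a', b', e⟩ := h
  refine ⟨f * a' + (f * b' / a) * b, f * b' % a, ?_, ?_, ?_⟩
  · have h1 := EuclideanDomain.div_add_mod (f * b') a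
    calc f = f * (a' * a + b' * b) := by rw [e, mul_one]
      _ = f * a' * a + (f * b') * b := by ring
      _ = f * a' * a + (a * (f * b' / a) + f * b' % a) * b := by rw [h1]
      _ = _ := by ring
  · intro hs
    have h1 := EuclideanDomain.div_add_mod (f * b') a
    have h2 : (f * a' + (f * b' / a) * b) * a = f - (f * b' % a) * b := by
      have : f = f * (a' * a + b' * b) := by rw [e, mul_one]
      calc (f * a' + (f * b' / a) * b) * a = f * a' * a + (a * (f * b' / a) + f * b' % a) * b - (f * b' % a) * b := by ring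
        _ = f * a' * a + (f * b') * b - (f * b' % a) * b := by rw [h1]
        _ = f * (a' * a + b' * b) - (f * b' % a) * b := by ring
        _ = _ := by rw [e, mul_one]
    have h3 : ((f * b' % a) * b).natDegree ≤ n := by
      by_cases ht : f * b' % a = 0
      · rw [ht, zero_mul, natDegree_zero]
        exact Nat.zero_le _
      · have h4 : (f * b' % a).natDegree < a.natDegree :=
          natDegree_lt_natDegree ht (EuclideanDomain.mod_lt _ ha)
        have h5 := natDegree_mul_le (p := f * b' % a) (q := b)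
        omega
    rw [← natDegree_mul hs ha, h2]
    exact (natDegree_sub_le _ _).trans (max_le hf h3)
  · intro ht
    have h4 : (f * b' % a).natDegree < a.natDegree :=
      natDegree_lt_natDegree ht (EuclideanDomain.mod_lt _ ha)
    omega

theorem ONE_claim (J : Ideal AA) (G1 G2 : AA) (p q m n : ℕ) (h1 : G1 ∈ J) (h2 : G2 ∈ J)
    (u v : AA) (d : ℂ[X]) (e : u * G1 + v * G2 = C d) (c : ℂ) (hd : d.eval c ≠ 0) (hc : G1.leadingCoeff.eval c ≠ 0)
    (hV1 : G1 ∈ V p q) (hV2 : G2 ∈ V p q) (hp : p ≤ m + 1) (hq : 2 * q ≤ n + 1) (f : AA) (hf : f ∈ V (m + 1) n) :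
    ∃ g ∈ V m n, ∃ h ∈ V (m + 1) n, h ∈ J ∧ f = C (X - C c) * g + h := by
  obtain ⟨φ, hφ⟩ : ∃ φ : ℂ[X] →+* ℂ, φ = evalRingHom c := ⟨_, rfl⟩
  have hφC : φ.comp (C : ℂ →+* ℂ[X]) = RingHom.id ℂ := by
    rw [hφ]
    ext x
    simp
  have hdeg : (G1.map φ).natDegree = G1.natDegree := by
    apply natDegree_map_of_leadingCoeff_ne_zero
    rw [hφ]
    exact hc
  have hne : G1.map φ ≠ 0 := by
    intro h0
    have : (G1.map φ).coeff G1.natDegree = 0 := by rw [h0, coeff_zero]
    rw [coeff_map, hφ] at this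
    exact hc this
  have hcop : IsCoprime (G1.map φ) (G2.map φ) := by
    have h3 : (u.map φ) * (G1.map φ) + (v.map φ) * (G2.map φ) = C (d.eval c) := by
      rw [← Polynomial.map_mul, ← Polynomial.map_mul, ← Polynomial.map_add, e, map_C, hφ]
      rfl
    refine ⟨C (d.eval c)⁻¹ * u.map φ, C (d.eval c)⁻¹ * v.map φ, ?_⟩
    calc C (d.eval c)⁻¹ * u.map φ * G1.map φ + C (d.eval c)⁻¹ * v.map φ * G2.map φ
        = C (d.eval c)⁻¹ * ((u.map φ) * (G1.map φ) + (v.map φ) * (G2.map φ)) := by ring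
      _ = 1 := by rw [h3, ← C_mul, inv_mul_cancel₀ hd, C_1]
  obtain ⟨s, t, hst, hs, ht⟩ := ONE_div (f.map φ) (G1.map φ) (G2.map φ) n q hcop hne
    (le_trans (natDegree_map_le) hf.2) (le_trans (natDegree_map_le) hV2.2) (le_trans (natDegree_map_le) hV1.2) hq
  obtain ⟨S, hS⟩ : ∃ S : AA, S = s.map (C : ℂ →+* ℂ[X]) := ⟨_, rfl⟩
  obtain ⟨T, hT⟩ : ∃ T : AA, T = t.map (C : ℂ →+* ℂ[X]) := ⟨_, rfl⟩
  have hSG : S * G1 ∈ V (m + 1) n := by
    by_cases h0 : s = 0
    · rw [hS, h0, Polynomial.map_zero, zero_mul]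
      exact Submodule.zero_mem _
    · have h3 := hs h0
      rw [hdeg] at h3
      refine ⟨?_, ?_⟩
      · refine (dX_mul_le _ _).trans ?_
        rw [hS, ONE_dX_map]
        have := hV1.1
        omega
      · refine (dY_mul_le _ _).trans ?_
        rw [hS, ONE_dY_map]
        exact h3
  have hTG : T * G2 ∈ V (m + 1) n := by
    by_cases h0 : t = 0
    · rw [hT, h0, Polynomial.map_zero, zero_mul]
      exact Submodule.zero_mem _
    · have h3 := ht h0
      refine ⟨?_, ?_⟩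
      · refine (dX_mul_le _ _).trans ?_
        rw [hT, ONE_dX_map]
        have := hV2.1
        omega
      · refine (dY_mul_le _ _).trans ?_
        rw [hT, ONE_dY_map]
        have := hV2.2
        omega
  obtain ⟨F, hF⟩ : ∃ F : AA, F = f - (S * G1 + T * G2) := ⟨_, rfl⟩
  have hFV : F ∈ V (m + 1) n := by
    rw [hF]
    exact Submodule.sub_mem _ hf (Submodule.add_mem _ hSG hTG)
  have hFc : F.map φ = 0 := by
    rw [hF, Polynomial.map_sub, Polynomial.map_add, Polynomial.map_mul, Polynomial.map_mul, hS, hT, Polynomial.map_map,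
      Polynomial.map_map, hφC, Polynomial.map_id, Polynomial.map_id, ← hst, sub_self]
  have hdvd : C (X - C c) ∣ F := by
    rw [C_dvd_iff_dvd_coeff]
    intro i
    rw [dvd_iff_isRoot]
    have h3 : (F.map φ).coeff i = 0 := by rw [hFc, coeff_zero]
    rw [coeff_map, hφ] at h3
    exact h3
  obtain ⟨g, hg⟩ := hdvd
  refine ⟨g, ?_, S * G1 + T * G2, Submodule.add_mem _ hSG hTG, J.add_mem (J.mul_mem_left _ h1) (J.mul_mem_left _ h2), ?_⟩
  · have hL : (C (X - C c) : AA) ≠ 0 := by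
      rw [Ne, C_eq_zero]
      exact X_sub_C_ne_zero c
    have h3 : g ∈ V (m + 1 - dX (C (X - C c) : AA)) (n - dY (C (X - C c) : AA)) := by
      apply mem_V_of_mul hL
      rw [← hg]
      exact hFV
    rw [dX_C, dY_C, natDegree_X_sub_C] at h3
    exact h3
  · rw [← hg, hF]
    ring

theorem ONE (hELI : ELI_stmt) : ONE_stmt := by
  intro J G1 G2 p q m n h1 h2 hrel hV1 hV2 hp hq
  by_cases hG : G1 = 0
  · have hu : IsUnit G2 := by
      apply hrel
      · rw [hG]
        exact dvd_zero _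
      · exact dvd_rfl
    have hJ : J = ⊤ := Ideal.eq_top_of_isUnit_mem J h2 hu
    have hh : ∀ i j, hd J i j = (i + 1) * (j + 1) := by
      intro i j
      unfold hd
      rw [hJ]
      have : (V i j ⊓ ((⊤ : Ideal AA).restrictScalars ℂ) : Submodule ℂ AA) = V i j := by
        apply inf_eq_left.mpr
        intro x _
        exact Submodule.mem_top
      rw [this, finrank_V]
    rw [hh, hh]
    apply le_of_eq
    ring
  obtain ⟨u, v, d, hd0, e⟩ := hELI G1 G2 hrel
  obtain ⟨c, hc⟩ : ∃ c : ℂ, (d * G1.leadingCoeff).eval c ≠ 0 := by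
    have hne : d * G1.leadingCoeff ≠ 0 := mul_ne_zero hd0 (leadingCoeff_ne_zero.mpr hG)
    by_contra hcon
    push Not at hcon
    exact hne (Polynomial.funext (fun x => by rw [hcon x, eval_zero]))
  rw [eval_mul] at hc
  have hc1 := left_ne_zero_of_mul hc
  have hc2 := right_ne_zero_of_mul hc
  have hL : (C (X - C c) : AA) ≠ 0 := by
    rw [Ne, C_eq_zero]
    exact X_sub_C_ne_zero c
  let μ : AA →ₗ[ℂ] AA := LinearMap.mulLeft ℂ (C (X - C c) : AA)
  have hμ : Function.Injective μ := by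
    intro x y hxy
    exact mul_left_cancel₀ hL hxy
  have hLV : (C (X - C c) : AA) ∈ V 1 0 := by
    rw [mem_V, dX_C, dY_C, natDegree_X_sub_C]
    exact ⟨le_rfl, le_rfl⟩
  obtain ⟨B, hB⟩ : ∃ B : Submodule ℂ AA, B = V (m + 1) n ⊓ J.restrictScalars ℂ := ⟨_, rfl⟩
  obtain ⟨A, hA⟩ : ∃ A : Submodule ℂ AA, A = V m n ⊓ J.restrictScalars ℂ := ⟨_, rfl⟩
  have fB : FiniteDimensional ℂ B := by rw [hB]; infer_instance
  have fA : FiniteDimensional ℂ A := by rw [hA]; infer_instance
  have hμW : (V m n).map μ ≤ V (m + 1) n := by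
    rintro _ ⟨x, hx, rfl⟩
    have := mul_mem_V hLV hx
    rw [Nat.add_comm 1 m, Nat.zero_add] at this
    exact this
  have hle : V (m + 1) n ≤ B ⊔ (V m n).map μ := by
    intro f hf
    obtain ⟨g, hg, h, hh, hhJ, he⟩ := ONE_claim J G1 G2 p q m n h1 h2 u v d e c hc1 hc2 hV1 hV2 hp hq f hf
    rw [he, add_comm]
    refine Submodule.add_mem_sup ?_ ⟨g, hg, rfl⟩
    rw [hB]
    exact ⟨hh, hhJ⟩
  have hAle : A.map μ ≤ B ⊓ (V m n).map μ := by
    rw [hA, hB]
    rintro _ ⟨x, ⟨hx1, hx2⟩, rfl⟩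
    refine ⟨⟨hμW ⟨x, hx1, rfl⟩, ?_⟩, ⟨x, hx1, rfl⟩⟩
    exact J.mul_mem_left _ hx2
  have e1 := Submodule.finrank_sup_add_finrank_inf_eq B ((V m n).map μ)
  have e2 : finrank ℂ ((V m n).map μ) = (m + 1) * (n + 1) := by
    rw [← (Submodule.equivMapOfInjective μ hμ (V m n)).finrank_eq, finrank_V]
  have e3 : finrank ℂ (A.map μ) = finrank ℂ A := (Submodule.equivMapOfInjective μ hμ A).finrank_eq.symm
  have fS : FiniteDimensional ℂ (B ⊔ (V m n).map μ : Submodule ℂ AA) := inferInstance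
  have fI : FiniteDimensional ℂ (B ⊓ (V m n).map μ : Submodule ℂ AA) :=
    Submodule.finiteDimensional_of_le (inf_le_left : B ⊓ (V m n).map μ ≤ B)
  have e4 : finrank ℂ (V (m + 1) n) ≤ finrank ℂ (B ⊔ (V m n).map μ : Submodule ℂ AA) := Submodule.finrank_mono hle
  have e5 : finrank ℂ (A.map μ) ≤ finrank ℂ (B ⊓ (V m n).map μ : Submodule ℂ AA) := Submodule.finrank_mono hAle
  rw [finrank_V] at e4
  unfold hd
  rw [← hA, ← hB]
  rw [e3] at e5
  rw [e2] at e1
  have e6 : (m + 1 + 1) * (n + 1) = (m + 1) * (n + 1) + (n + 1) := by ring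
  omega

end

end Pool.Agent.HFN
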